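import Pool.Agent.W845.GL.Stm

/-! GL-DG: the graph sequence. -/

set_option autoImplicit false

namespace Pool.Agent.W513.GL

open Pool.Agent.W845.GL Filter Finset
open scoped Classical Topology

/-- scaling of the kernel -/
theorem tW_scale {X : Type} [Fintype X] (q : ℝ) (W : X → X → ℝ) {k : ℕ} (F : SimpleGraph (Fin k)) :
    tW (fun x y => q * W x y) F = q ^ (Eg F).card * tW W F := by
  unfold tW
  rw [← mul_div_assoc]
  congr 1
  rw [Finset.mul_sum]
  refine Finset.sum_congr rfl (fun x _ => ?_)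
  rw [Finset.prod_mul_distrib, Finset.prod_const]

theorem Eg_card_le {k : ℕ} (F : SimpleGraph (Fin k)) : (Eg F).card ≤ k ^ 2 := by
  unfold Eg
  refine le_trans (Finset.card_filter_le _ _) ?_
  simp [sq]

/-- the diagonal argument -/
theorem diag (Q : ℕ → ℕ → Prop) (hQ : ∀ i, ∀ᶠ n in atTop, Q i n) :
    ∃ ι : ℕ → ℕ, Tendsto ι atTop atTop ∧ ∀ᶠ n in atTop, Q (ι n) n := by
  have h : ∀ i, ∃ N : ℕ, ∀ n, N ≤ n → Q i n := fun i => eventually_atTop.mp (hQ i)
  choose N hN using h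
  refine ⟨fun n => Nat.findGreatest (fun i => max i (N i) ≤ n) n, ?_, ?_⟩
  · rw [tendsto_atTop_atTop]
    intro b
    refine ⟨max b (N b), fun n hn => ?_⟩
    exact Nat.le_findGreatest (le_trans (le_max_left _ _) hn) hn
  · refine eventually_atTop.mpr ⟨max 0 (N 0), fun n hn => ?_⟩
    have := Nat.findGreatest_spec (P := fun i => max i (N i) ≤ n) (Nat.zero_le n) hn
    exact hN _ n (le_trans (le_max_right _ _) this)

theorem step (hT0 : S_T0) (hR5 : S_R5) (p : ℕ → ℝ) (hp : AD p) (i : ℕ) :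
    ∀ᶠ n : ℕ in atTop, ∃ G : SimpleGraph (Fin n), ∀ k ≤ i, ∀ F : SimpleGraph (Fin k),
      |(nemb F G : ℝ) / (p n ^ (Eg F).card * (n.descFactorial k : ℝ)) - tW (KK i) F| ≤ 1 / ((i : ℝ) + 1) := by
  obtain ⟨-, -, -, -, hKb, hKs, -⟩ := hT0
  obtain ⟨hp1, hp2, hp3⟩ := hp
  let s : Finset (Σ k : ℕ, SimpleGraph (Fin k)) := Finset.sigma (range (i + 1)) (fun _ => univ)
  let M : ℕ := 2 * i ^ 2 + 1
  have hM : (0 : ℝ) < (M : ℝ) := by positivity
  have e1 : ∀ᶠ n : ℕ in atTop, p n < 1 / 4 ^ i := hp3.eventually (gt_mem_nhds (by positivity))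
  have e2 : ∀ᶠ n : ℕ in atTop, (n : ℝ) ^ (-(1 / (2 * (M : ℝ)))) ≤ p n := hp2 _ (by positivity)
  have e3 : ∀ᶠ n : ℕ in atTop, max i 1 ≤ n := eventually_ge_atTop _
  have e4 : ∀ᶠ n : ℕ in atTop, (s.card : ℝ) * ((i : ℝ) ^ 2 * ((i : ℝ) + 1) ^ 2) < Real.sqrt n := by
    have : Tendsto (fun n : ℕ => Real.sqrt (n : ℝ)) atTop atTop :=
      Real.tendsto_sqrt_atTop.comp tendsto_natCast_atTop_atTop
    exact this.eventually (eventually_gt_atTop _)
  filter_upwards [e1, e2, e3, e4] with n h1 h2 h3 h4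
  have hn1 : 1 ≤ n := le_trans (le_max_right _ _) h3
  have hni : i ≤ n := le_trans (le_max_left _ _) h3
  have hnpos : (0 : ℝ) < (n : ℝ) := by exact_mod_cast hn1
  have hp0 := (hp1 n).1
  have hpl := (hp1 n).2
  have hsq : 0 < Real.sqrt n := Real.sqrt_pos.mpr hnpos
  -- lower bound for the power
  have hpow : (Real.sqrt n)⁻¹ ≤ p n ^ M := by
    have ha : ((n : ℝ) ^ (-(1 / (2 * (M : ℝ))))) ^ M ≤ p n ^ M :=
      pow_le_pow_left₀ (Real.rpow_nonneg hnpos.le _) h2 M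
    refine le_trans (le_of_eq ?_) ha
    rw [← Real.rpow_natCast, ← Real.rpow_mul hnpos.le, Real.sqrt_eq_rpow, ← Real.rpow_neg hnpos.le]
    congr 1
    field_simp
  obtain ⟨G, hG⟩ := hR5 (Fin i → Bool) (fun x y => p n * KK i x y)
    (fun x y => by rw [hKs i x y])
    (fun x y => by
      have hb := hKb i x y
      refine ⟨mul_nonneg hp0.le hb.1, ?_⟩
      have : p n * KK i x y ≤ (1 / 4 ^ i) * 4 ^ i :=
        mul_le_mul h1.le hb.2 hb.1 (by positivity)
      have h4i : (1 / (4 : ℝ) ^ i) * 4 ^ i = 1 := by field_simp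
      linarith)
    n s (fun z => p n ^ (Eg z.2).card / ((i : ℝ) + 1)) hn1
    (by
      intro z hz
      have hz1 : z.1 ∈ range (i + 1) := (Finset.mem_sigma.mp hz).1
      have : z.1 ≤ i := Nat.lt_succ_iff.mp (Finset.mem_range.mp hz1)
      exact ⟨by positivity, le_trans this hni⟩)
    (by
      have hterm : ∀ z ∈ s, (z.1 : ℝ) ^ 2 / ((n : ℝ) * (p n ^ (Eg z.2).card / ((i : ℝ) + 1)) ^ 2)
          ≤ (i : ℝ) ^ 2 * ((i : ℝ) + 1) ^ 2 / Real.sqrt n := by
        intro z hz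
        have hz1 : z.1 ∈ range (i + 1) := (Finset.mem_sigma.mp hz).1
        have hzi : z.1 ≤ i := Nat.lt_succ_iff.mp (Finset.mem_range.mp hz1)
        have hzi' : (z.1 : ℝ) ≤ (i : ℝ) := by exact_mod_cast hzi
        have hE : 2 * (Eg z.2).card ≤ M := by
          have ha := Eg_card_le z.2
          have hb : z.1 ^ 2 ≤ i ^ 2 := Nat.pow_le_pow_left hzi 2
          show 2 * (Eg z.2).card ≤ 2 * i ^ 2 + 1
          omega
        have hpe : (Real.sqrt n)⁻¹ ≤ (p n ^ (Eg z.2).card) ^ 2 := by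
          rw [← pow_mul, mul_comm]
          exact le_trans hpow (pow_le_pow_of_le_one hp0.le hpl hE)
        have hden : Real.sqrt n / ((i : ℝ) + 1) ^ 2 ≤
            (n : ℝ) * (p n ^ (Eg z.2).card / ((i : ℝ) + 1)) ^ 2 := by
          rw [div_pow, ← mul_div_assoc]
          refine div_le_div_of_nonneg_right ?_ (by positivity)
          calc Real.sqrt n = (n : ℝ) * (Real.sqrt n)⁻¹ := by
                rw [eq_mul_inv_iff_mul_eq₀ hsq.ne']
                exact Real.mul_self_sqrt hnpos.le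
            _ ≤ _ := mul_le_mul_of_nonneg_left hpe hnpos.le
        have hd0 : 0 < Real.sqrt n / ((i : ℝ) + 1) ^ 2 := by positivity
        calc (z.1 : ℝ) ^ 2 / ((n : ℝ) * (p n ^ (Eg z.2).card / ((i : ℝ) + 1)) ^ 2)
            ≤ (i : ℝ) ^ 2 / (Real.sqrt n / ((i : ℝ) + 1) ^ 2) :=
              div_le_div₀ (by positivity) (pow_le_pow_left₀ (Nat.cast_nonneg _) hzi' 2) hd0 hden
          _ = _ := by rw [div_div_eq_mul_div]
      refine lt_of_le_of_lt (Finset.sum_le_card_nsmul s _ _ hterm) ?_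
      rw [nsmul_eq_mul, ← mul_div_assoc, div_lt_one hsq]
      exact h4)
  refine ⟨G, fun k hk F => ?_⟩
  have hmem : (⟨k, F⟩ : Σ k : ℕ, SimpleGraph (Fin k)) ∈ s :=
    Finset.mem_sigma.mpr ⟨Finset.mem_range.mpr (Nat.lt_succ_of_le hk), Finset.mem_univ _⟩
  have hh := hG ⟨k, F⟩ hmem
  simp only at hh
  rw [tW_scale] at hh
  have hpE : 0 < p n ^ (Eg F).card := by positivity
  have heq : (nemb F G : ℝ) / (p n ^ (Eg F).card * (n.descFactorial k : ℝ)) - tW (KK i) F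
      = ((nemb F G : ℝ) / (n.descFactorial k : ℝ) - p n ^ (Eg F).card * tW (KK i) F) / p n ^ (Eg F).card := by
    rw [sub_div, mul_div_cancel_left₀ _ hpE.ne', div_div, mul_comm (n.descFactorial k : ℝ)]
  rw [heq, abs_div, abs_of_pos hpE, div_le_iff₀ hpE]
  refine le_trans hh (le_of_eq ?_)
  ring

theorem dgt : S_T0 → S_T3 → S_R5 → S_DG := by
  intro hT0 hT3 hR5 p hp
  obtain ⟨ι, hι, hQ⟩ := diag (fun i n => ∃ G : SimpleGraph (Fin n), ∀ k ≤ i, ∀ F : SimpleGraph (Fin k),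
      |(nemb F G : ℝ) / (p n ^ (Eg F).card * (n.descFactorial k : ℝ)) - tW (KK i) F| ≤ 1 / ((i : ℝ) + 1))
    (fun i => step hT0 hR5 p hp i)
  refine ⟨fun n => if h : ∃ G : SimpleGraph (Fin n), ∀ k ≤ ι n, ∀ F : SimpleGraph (Fin k),
      |(nemb F G : ℝ) / (p n ^ (Eg F).card * (n.descFactorial k : ℝ)) - tW (KK (ι n)) F| ≤ 1 / ((ι n : ℝ) + 1)
      then Classical.choose h else ⊥, ?_⟩
  intro k F
  have hc : Tendsto (fun n => tW (KK (ι n)) F) atTop (𝓝 (cc F)) := (hT3 k F).2.comp hι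
  have hz : Tendsto (fun n : ℕ => 1 / ((ι n : ℝ) + 1)) atTop (𝓝 0) :=
    tendsto_one_div_add_atTop_nhds_zero_nat.comp hι
  have hev : ∀ᶠ n : ℕ in atTop, k ≤ ι n := hι.eventually (eventually_ge_atTop k)
  have hd : Tendsto (fun n : ℕ => (nemb F (if h : ∃ G : SimpleGraph (Fin n), ∀ k ≤ ι n, ∀ F : SimpleGraph (Fin k),
      |(nemb F G : ℝ) / (p n ^ (Eg F).card * (n.descFactorial k : ℝ)) - tW (KK (ι n)) F| ≤ 1 / ((ι n : ℝ) + 1)
      then Classical.choose h else ⊥ : SimpleGraph (Fin n)) : ℝ) / (p n ^ (Eg F).card * (n.descFactorial k : ℝ))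
      - tW (KK (ι n)) F) atTop (𝓝 0) := by
    refine squeeze_zero_norm' ?_ hz
    filter_upwards [hev, hQ] with n h1 h2
    rw [dif_pos h2, Real.norm_eq_abs]
    exact Classical.choose_spec h2 k h1 F
  have := hd.add hc
  simpa using this

end Pool.Agent.W513.GL
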